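import Mathlib
import Pool.Agent.H.MP_23c930_nt.B

namespace Pool.Agent.Results.MP_23c930_nt.Yes

theorem result : ∃ n m : ℕ, 1 ≤ n ∧ ∀ i : ℕ, 1 ≤ i → i ≤ n →
    (∃ p q : ℕ, p.Prime ∧ q.Prime ∧ p ≠ q ∧ p < n ∧ q < n ∧ p * q ∣ m + i) ∨
    (∃ p : ℕ, p.Prime ∧ (p : ℚ) < (n : ℚ) / 2 ∧ p ^ 2 ∣ m + i) := by
  refine ⟨22500, Pool.Agent.H.MP_23c930_nt.m0, by norm_num, ?_⟩
  intro i h1 h2
  have h := Pool.Agent.H.MP_23c930_nt.cov0 (i - 1) (by omega)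
  have e : Pool.Agent.H.MP_23c930_nt.m0 + 1 + (i - 1) = Pool.Agent.H.MP_23c930_nt.m0 + i := by
    omega
  rw [e] at h
  rcases h with h | ⟨p, hp, h3, h4⟩
  · exact Or.inl h
  · refine Or.inr ⟨p, hp, ?_, h4⟩
    have h5 : ((2 * p : ℕ) : ℚ) < ((22500 : ℕ) : ℚ) := by exact_mod_cast h3
    push_cast at h5 ⊢
    linarith

end Pool.Agent.Results.MP_23c930_nt.Yes
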